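import Mathlib
import Pool.Agent.H967GU.Fin

/-!
The isomorphism class of the Gurarii space is a complete analytic set, in the space of pseudonorms
coding infinite-dimensional spaces and in the space of norms; its complement is not analytic. The
isomorphism class of every separable infinite-dimensional Banach space is analytic.
-/

set_option autoImplicit false

namespace Pool.Agent.Results.MP_c7f7e8_an.CompleteAnalytic

open Pool.Agent.H418R3.Gur Pool.Agent.H967GU TopologicalSpace MeasureTheory

/-- `S` is complete analytic: it is analytic, and every analytic subset of the Baire space is the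
preimage of `S` under a continuous map. -/
def IsCompleteAnalytic {X : Type} [TopologicalSpace X] (S : Set X) : Prop :=
  AnalyticSet S ∧ ∀ A : Set (ℕ → ℕ), AnalyticSet A →
    ∃ Φ : (ℕ → ℕ) → X, Continuous Φ ∧ Φ ⁻¹' S = A

theorem result :
    (∃ (G : Type) (_ : NormedAddCommGroup G) (_ : NormedSpace ℝ G),
      CompleteSpace G ∧ SeparableSpace G ∧ IsGurarii G ∧
      (IsCompleteAnalytic (isoClass PInf G) ∧ IsCompleteAnalytic (isoClass BB G)) ∧
      (¬ AnalyticSet (isoClass PInf G)ᶜ ∧ ¬ AnalyticSet (isoClass BB G)ᶜ) ∧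
      (¬ IsGδ (isoClass PInf G) ∧ ¬ IsGδ (isoClass BB G)) ∧
      (¬ @MeasurableSet PInf (borel PInf) (isoClass PInf G) ∧
        ¬ @MeasurableSet BB (borel BB) (isoClass BB G))) ∧
    ∀ (G : Type) [NormedAddCommGroup G] [NormedSpace ℝ G] [CompleteSpace G] [SeparableSpace G],
      ¬ FiniteDimensional ℝ G → AnalyticSet (isoClass PInf G) ∧ AnalyticSet (isoClass BB G) := by
  refine ⟨⟨Sp uni.sn, inferInstance, inferInstance, inferInstance, separable_Sp _, uni_gurarii,
    ⟨⟨?_, hard theta_mem_PInf⟩, ⟨?_, hard theta_mem_BB⟩⟩,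
    ⟨compl_not_analytic theta_mem_PInf, compl_not_analytic theta_mem_BB⟩,
    ⟨not_gdelta theta_mem_PInf, not_gdelta theta_mem_BB⟩,
    ⟨not_borel theta_mem_PInf, not_borel theta_mem_BB⟩⟩, ?_⟩
  · have : SeparableSpace (Sp uni.sn) := separable_Sp _
    exact analytic_PInf uni_inf
  · have : SeparableSpace (Sp uni.sn) := separable_Sp _
    exact analytic_BB
  · intro G _ _ _ _ hG
    exact ⟨analytic_PInf hG, analytic_BB⟩

end Pool.Agent.Results.MP_c7f7e8_an.CompleteAnalytic
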